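import Mathlib
import Pool.Agent.Lib.MP_4e48d5_nt.ZeroOne

/-!
# Metric lower bound for the van der Corput-Kronecker sequence

For every positive nondecreasing `φ` with `∑ 1/φ(n) = ∞` and almost every `α`, the hybrid sequence
`z_n = (x_n, {n α})` satisfies `N D_N(α) ≥ (log N)^2 φ(⌊log log N⌋)` for infinitely many `N`.
-/

set_option autoImplicit false

namespace Pool.Agent.Results.MP_4e48d5_nt.MetricLowerBound

open Finset MeasureTheory Filter Topology Pool.Agent.Lib.MP_4e48d5_nt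

/-- The van der Corput sequence in base 2: if `n = ∑ a_j 2^j` with binary digits
`a_j = ⌊n / 2^j⌋ mod 2` (these vanish for `j ≥ n`), then `vdC n = ∑ a_j 2^(-j-1)`. -/
noncomputable def vdC (n : ℕ) : ℝ :=
  ∑ j ∈ Finset.range n, ((n / 2 ^ j % 2 : ℕ) : ℝ) / 2 ^ (j + 1)

/-- The hybrid sequence `z_n = (x_n, {n α})`. -/
noncomputable def hybrid (α : ℝ) (n : ℕ) : ℝ × ℝ := (vdC n, Int.fract (n * α))

open Classical in
/-- The number of `n < N` with `z_n ∈ [a₁, b₁) × [a₂, b₂)`. -/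
noncomputable def boxCount (α : ℝ) (N : ℕ) (a₁ b₁ a₂ b₂ : ℝ) : ℕ :=
  ((Finset.range N).filter (fun n => hybrid α n ∈ Set.Ico a₁ b₁ ×ˢ Set.Ico a₂ b₂)).card

/-- The discrepancy `D_N(α)`: the supremum over all boxes `[a₁, b₁) × [a₂, b₂) ⊆ [0,1)²` of
`|#{0 ≤ n < N : z_n ∈ [a₁, b₁) × [a₂, b₂)} / N - (b₁ - a₁)(b₂ - a₂)|`. -/
noncomputable def discrepancy (α : ℝ) (N : ℕ) : ℝ :=
  sSup {d : ℝ | ∃ a₁ b₁ a₂ b₂ : ℝ, 0 ≤ a₁ ∧ a₁ ≤ b₁ ∧ b₁ ≤ 1 ∧ 0 ≤ a₂ ∧ a₂ ≤ b₂ ∧ b₂ ≤ 1 ∧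
    d = |(boxCount α N a₁ b₁ a₂ b₂ : ℝ) / N - (b₁ - a₁) * (b₂ - a₂)|}

theorem bddAbove_set (α : ℝ) (N : ℕ) :
    BddAbove {d : ℝ | ∃ a₁ b₁ a₂ b₂ : ℝ, 0 ≤ a₁ ∧ a₁ ≤ b₁ ∧ b₁ ≤ 1 ∧ 0 ≤ a₂ ∧ a₂ ≤ b₂ ∧ b₂ ≤ 1 ∧
      d = |(boxCount α N a₁ b₁ a₂ b₂ : ℝ) / N - (b₁ - a₁) * (b₂ - a₂)|} := by
  refine ⟨1, ?_⟩
  rintro d ⟨a₁, b₁, a₂, b₂, h1, h2, h3, h4, h5, h6, rfl⟩
  have hc : boxCount α N a₁ b₁ a₂ b₂ ≤ N := by
    unfold boxCount
    exact (Finset.card_filter_le _ _).trans (by rw [Finset.card_range])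
  have hcR : (boxCount α N a₁ b₁ a₂ b₂ : ℝ) ≤ N := by exact_mod_cast hc
  have h7 : (boxCount α N a₁ b₁ a₂ b₂ : ℝ) / N ≤ 1 := div_le_one_of_le₀ hcR (Nat.cast_nonneg _)
  have h8 : 0 ≤ (boxCount α N a₁ b₁ a₂ b₂ : ℝ) / N := by positivity
  have h9 : (b₁ - a₁) * (b₂ - a₂) ≤ 1 * 1 :=
    mul_le_mul (by linarith) (by linarith) (by linarith) (by norm_num)
  have h10 : 0 ≤ (b₁ - a₁) * (b₂ - a₂) := mul_nonneg (by linarith) (by linarith)
  rw [abs_le]
  constructor <;> linarith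

theorem digit_le_vdC (n j : ℕ) (h : n / 2 ^ j % 2 = 1) : 1 / (2:ℝ) ^ (j + 1) ≤ vdC n := by
  have hj : j ∈ Finset.range n := by
    rw [Finset.mem_range]
    by_contra hcon
    push Not at hcon
    have h1 : n < 2 ^ j := lt_of_le_of_lt hcon Nat.lt_two_pow_self
    rw [Nat.div_eq_of_lt h1] at h
    omega
  unfold vdC
  have h2 := Finset.single_le_sum (f := fun j => ((n / 2 ^ j % 2 : ℕ) : ℝ) / 2 ^ (j + 1))
    (fun i _ => by positivity) hj
  refine le_trans ?_ h2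
  simp only [h]
  norm_num

theorem dvd_of_vdC_lt (n J : ℕ) (h : vdC n < 1 / 2 ^ J) : 2 ^ J ∣ n := by
  have hdig : ∀ j < J, n / 2 ^ j % 2 = 0 := by
    intro j hj
    by_contra hcon
    have h1 : n / 2 ^ j % 2 = 1 := by omega
    have h2 := digit_le_vdC n j h1
    have h3 : (1:ℝ) / 2 ^ J ≤ 1 / 2 ^ (j+1) := by
      apply one_div_le_one_div_of_le (by positivity)
      exact pow_le_pow_right₀ (by norm_num) hj
    linarith
  have hmod : ∀ m ≤ J, n % 2 ^ m = 0 := by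
    intro m
    induction m with
    | zero => intro _; simp [Nat.mod_one]
    | succ m ih =>
      intro hm
      rw [Nat.mod_pow_succ, ih (by omega), hdig m (by omega), Nat.mul_zero]
  exact Nat.dvd_of_mod_eq_zero (hmod J le_rfl)

/-- If `α` is very close to `c / (2^j q)`, then the box `[0, 2^(-j)) × [1/(4q), 3/(4q))` contains
none of the first `2^j M` points. -/
theorem discrepancy_ge {α δ : ℝ} {Q j q M : ℕ} {c : ℤ} (hq : 0 < q) (hQ : Q = 2 ^ j * q)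
    (hα : |α - c / Q| < δ) (hM : 2 ^ j * M * δ ≤ 1 / (4 * q)) :
    1 / ((2:ℝ) ^ (j + 1) * q) ≤ discrepancy α (2 ^ j * M) := by
  have hqR : (0:ℝ) < q := by exact_mod_cast hq
  have hq1 : (1:ℝ) ≤ q := by exact_mod_cast hq
  have hδ : 0 < δ := lt_of_le_of_lt (abs_nonneg _) hα
  have hcount : boxCount α (2 ^ j * M) 0 (1 / 2 ^ j) (1 / (4 * q)) (3 / (4 * q)) = 0 := by
    unfold boxCount
    rw [Finset.card_eq_zero, Finset.filter_eq_empty_iff]
    intro n hn hmem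
    rw [Finset.mem_range] at hn
    rw [Set.mem_prod, Set.mem_Ico, Set.mem_Ico] at hmem
    obtain ⟨⟨_, h1⟩, h2, h3⟩ := hmem
    simp only [hybrid] at h1 h2 h3
    obtain ⟨m, rfl⟩ := dvd_of_vdC_lt n j h1
    have hm : m < M := Nat.lt_of_mul_lt_mul_left hn
    have hmR : (m:ℝ) + 1 ≤ M := by exact_mod_cast hm
    have hm0 : (0:ℝ) ≤ m := Nat.cast_nonneg m
    have h2j : (0:ℝ) < 2 ^ j := by positivity
    -- the deviation
    obtain ⟨η, hη⟩ : ∃ η : ℝ, η = 2 ^ j * m * (α - c / Q) := ⟨_, rfl⟩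
    have hηabs : |η| < 1 / (4 * q) := by
      rw [hη, abs_mul, abs_of_nonneg (by positivity)]
      have e1 : (2:ℝ) ^ j * m * |α - c / Q| ≤ 2 ^ j * m * δ :=
        mul_le_mul_of_nonneg_left hα.le (by positivity)
      have e2 : (2:ℝ) ^ j * m * δ < 2 ^ j * M * δ := by
        apply mul_lt_mul_of_pos_right _ hδ
        apply mul_lt_mul_of_pos_left _ h2j
        linarith
      linarith
    have hval : ((2 ^ j * m : ℕ) : ℝ) * α = m * c / q + η := by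
      rw [hη, hQ]; push_cast; field_simp; ring
    rw [hval] at h2 h3
    have hfr := Int.self_sub_floor ((m:ℝ) * c / q + η)
    obtain ⟨f, hf⟩ : ∃ f : ℝ, f = Int.fract ((m:ℝ) * c / q + η) := ⟨_, rfl⟩
    rw [← hf] at h2 h3 hfr
    obtain ⟨z, hz⟩ : ∃ z : ℤ, z = ⌊(m:ℝ) * c / q + η⌋ := ⟨_, rfl⟩
    rw [← hz] at hfr
    have hI : (((m:ℤ) * c - q * z : ℤ) : ℝ) = q * f - q * η := by
      push_cast
      rw [← hfr]; field_simp; ring
    have hη' := abs_lt.mp hηabs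
    rw [div_le_iff₀ (by positivity)] at h2
    rw [lt_div_iff₀ (by positivity)] at h3
    have hη1 : -(1:ℝ) / 4 < q * η := by
      have := hη'.1
      rw [neg_lt, ← mul_lt_mul_iff_right₀ hqR] at this
      have e : (q:ℝ) * (1 / (4 * q)) = 1 / 4 := by field_simp
      rw [e] at this
      linarith
    have hη2 : q * η < (1:ℝ) / 4 := by
      have := hη'.2
      rw [← mul_lt_mul_iff_right₀ hqR] at this
      have e : (q:ℝ) * (1 / (4 * q)) = 1 / 4 := by field_simp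
      rw [e] at this
      linarith
    have hI0 : (0:ℝ) < (((m:ℤ) * c - q * z : ℤ) : ℝ) := by rw [hI]; linarith
    have hI1 : (((m:ℤ) * c - q * z : ℤ) : ℝ) < 1 := by rw [hI]; linarith
    have hI0' : (0:ℤ) < (m:ℤ) * c - q * z := by exact_mod_cast hI0
    have hI1' : (m:ℤ) * c - q * z < (1:ℤ) := by exact_mod_cast hI1
    omega
  unfold discrepancy
  apply le_csSup (bddAbove_set α _)
  refine ⟨0, 1 / 2 ^ j, 1 / (4 * q), 3 / (4 * q), le_rfl, by positivity, ?_, by positivity, ?_,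
    ?_, ?_⟩
  · rw [div_le_one (by positivity)]; exact one_le_pow₀ (by norm_num)
  · exact div_le_div_of_nonneg_right (by norm_num) (by positivity)
  · rw [div_le_one (by positivity)]; linarith
  · rw [hcount]
    have e : ((0:ℕ):ℝ) / ((2 ^ j * M : ℕ) : ℝ) - (1 / 2 ^ j - 0) * (3 / (4 * q) - 1 / (4 * q)) =
        - (1 / ((2:ℝ) ^ (j + 1) * q)) := by
      push_cast
      rw [pow_succ]
      field_simp
      ring
    rw [e, abs_neg, abs_of_pos (by positivity)]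

/-- The weights `ρ_k`. -/
noncomputable def rho (φ : ℕ → ℝ) (C : ℝ) (k : ℕ) : ℝ :=
  if φ (k + 2) ≤ 2 ^ k then 1 / (C * 4 ^ k * φ (k + 2)) else 0

theorem rho_nonneg (φ : ℕ → ℝ) (hφ : ∀ n, 0 < φ n) (C : ℝ) (hC : 0 < C) (k : ℕ) :
    0 ≤ rho φ C k := by
  unfold rho
  have := hφ (k + 2)
  split_ifs
  · positivity
  · exact le_rfl

theorem four_pow_mul_rho_le (φ : ℕ → ℝ) (hmono : Monotone φ) (hφ : ∀ n, 0 < φ n) (C : ℝ)
    (hC : 144 / φ 0 ≤ C) (k : ℕ) : 4 ^ k * rho φ C k ≤ 1 / 144 := by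
  have h0 := hφ 0
  have hC0 : 0 < C := lt_of_lt_of_le (by positivity) hC
  unfold rho
  split_ifs
  · have h1 : φ 0 ≤ φ (k + 2) := hmono (Nat.zero_le _)
    have h2 : 144 ≤ C * φ 0 := by rwa [div_le_iff₀ h0] at hC
    have h3 := hφ (k + 2)
    have e : 4 ^ k * (1 / (C * 4 ^ k * φ (k + 2))) = 1 / (C * φ (k + 2)) := by
      field_simp
    rw [e]
    apply one_div_le_one_div_of_le (by norm_num)
    nlinarith
  · norm_num

theorem not_summable_rho (φ : ℕ → ℝ) (hφ : ∀ n, 0 < φ n)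
    (hdiv : ¬ Summable (fun n => 1 / φ n)) (C : ℝ) (hC : 0 < C) :
    ¬ Summable (fun k => 4 ^ k * rho φ C k) := by
  intro hs
  apply hdiv
  rw [← summable_nat_add_iff 2]
  have h1 : Summable (fun k => C * (4 ^ k * rho φ C k) + (1 / 2 : ℝ) ^ k) :=
    (hs.mul_left C).add (summable_geometric_of_lt_one (by norm_num) (by norm_num))
  apply Summable.of_nonneg_of_le _ _ h1
  · intro k; exact (one_div_pos.mpr (hφ _)).le
  · intro k
    have h3 := hφ (k + 2)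
    unfold rho
    split_ifs with h
    · have e : C * (4 ^ k * (1 / (C * 4 ^ k * φ (k + 2)))) = 1 / φ (k + 2) := by
        field_simp
      rw [e]
      have : (0:ℝ) ≤ (1 / 2) ^ k := by positivity
      linarith
    · push Not at h
      rw [mul_zero, mul_zero, zero_add, one_div_pow]
      exact one_div_le_one_div_of_le (by positivity) h.le

theorem eventually_log_le (C : ℝ) :
    ∀ᶠ k : ℕ in atTop, Real.log C + 3 * k * Real.log 2 ≤ (4 / 5) * 2 ^ k := by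
  have h1 : Tendsto (fun k : ℕ => (k:ℝ) ^ 1 / (2:ℝ) ^ k) atTop (𝓝 0) :=
    tendsto_pow_const_div_const_pow_of_one_lt 1 (by norm_num)
  have h2 : Tendsto (fun k : ℕ => 1 / (2:ℝ) ^ k) atTop (𝓝 0) := by
    have := tendsto_pow_atTop_nhds_zero_of_lt_one (r := (1/2:ℝ)) (by norm_num) (by norm_num)
    simpa [one_div_pow] using this
  have h3 : Tendsto (fun k : ℕ => Real.log C * (1 / (2:ℝ) ^ k) +
      (3 * Real.log 2) * ((k:ℝ) ^ 1 / (2:ℝ) ^ k)) atTop (𝓝 (Real.log C * 0 + (3 * Real.log 2) * 0)) :=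
    (h2.const_mul _).add (h1.const_mul _)
  rw [mul_zero, mul_zero, add_zero] at h3
  filter_upwards [h3.eventually_lt_const (by norm_num : (0:ℝ) < 4 / 5)] with k hk
  have hpos : (0:ℝ) < 2 ^ k := by positivity
  have e : Real.log C * (1 / (2:ℝ) ^ k) + (3 * Real.log 2) * ((k:ℝ) ^ 1 / (2:ℝ) ^ k) =
      (Real.log C + 3 * k * Real.log 2) / 2 ^ k := by
    field_simp
  rw [e, div_lt_iff₀ hpos] at hk
  exact hk.le

theorem log_five_le : Real.log 5 ≤ 2 := by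
  rw [Real.log_le_iff_le_exp (by norm_num)]
  have h6 := Real.exp_one_gt_d9
  have h7 : Real.exp 2 = Real.exp 1 * Real.exp 1 := by
    rw [← Real.exp_add]; norm_num
  rw [h7]; nlinarith

theorem log_four_eq : Real.log 4 = 2 * Real.log 2 := by
  rw [show (4:ℝ) = 2 ^ 2 by norm_num, Real.log_pow]; norm_num

theorem log_sum_aux {a b L P R : ℝ} (hL0 : 0 < L) (hL1 : L < 0.6931471808) (hP : 0 < P)
    (ha : a ≤ 2 * P) (hb : b ≤ 2 * P) (hR : R ≤ (4 / 5) * P) :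
    a * L + (b * (2 * L) + R) ≤ 5 * P := by
  have h3 : a * L ≤ 2 * P * L := mul_le_mul_of_nonneg_right ha hL0.le
  have h4 : b * (2 * L) ≤ 2 * P * (2 * L) := mul_le_mul_of_nonneg_right hb (by positivity)
  have h5 : P * L ≤ P * 0.6931471808 := mul_le_mul_of_nonneg_left hL1.le hP.le
  linarith

theorem count_aux {T q A M : ℝ} (hq : 1 ≤ q) (hqT : q ≤ T) (hA : 8 ≤ A)
    (h : T * T * A < (M + 1) * (4 * q)) : A * (2 * q) ≤ M * 16 := by
  have hq0 : 0 < q := by linarith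
  have h2 : q * q * A ≤ T * T * A := by
    apply mul_le_mul_of_nonneg_right _ (by linarith)
    exact mul_le_mul hqT hqT hq0.le (by linarith)
  have h3 : q * A < (M + 1) * 4 := by
    have : q * (q * A) < q * ((M + 1) * 4) := by
      calc q * (q * A) = q * q * A := by ring
        _ ≤ T * T * A := h2
        _ < (M + 1) * (4 * q) := h
        _ = q * ((M + 1) * 4) := by ring
    exact lt_of_mul_lt_mul_left this hq0.le
  have h4 : 8 * 1 ≤ A * q := mul_le_mul hA hq (by norm_num) (by linarith)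
  linarith

/-- The quantitative step: an approximation at scale `k` gives a large discrepancy. -/
theorem scale_step (φ : ℕ → ℝ) (hmono : Monotone φ) (hφ : ∀ n, 0 < φ n) (C : ℝ) (hC : 400 ≤ C)
    (k : ℕ) (hk1 : 1 ≤ k) (hk : Real.log C + 3 * k * Real.log 2 ≤ (4 / 5) * 2 ^ k)
    (hgood : φ (k + 2) ≤ 2 ^ k)
    (hone : 8 ≤ C * φ (k + 2)) (α : ℝ) (Q : ℕ) (c : ℤ)
    (hi2 : ii Q < 2 ^ (k + 1)) (hj1 : 2 ^ k ≤ jj Q) (hj2 : jj Q < 2 ^ (k + 1))
    (hq1 : 4 ^ (ii Q) ≤ qq Q) (hq2 : qq Q < 4 ^ (ii Q + 1))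
    (hα : |α - c / Q| < (1 / (C * 4 ^ k * φ (k + 2))) / (2 ^ (jj Q) * 16 ^ (ii Q + 1))) :
    ∃ N : ℕ, k ≤ N ∧ (Real.log N) ^ 2 * φ ⌊Real.log (Real.log N)⌋₊ / N ≤ discrepancy α N := by
  obtain ⟨i, hi⟩ : ∃ i, i = ii Q := ⟨_, rfl⟩
  obtain ⟨j, hj⟩ : ∃ j, j = jj Q := ⟨_, rfl⟩
  obtain ⟨q, hq⟩ : ∃ q, q = qq Q := ⟨_, rfl⟩
  obtain ⟨ψ, hψ⟩ : ∃ ψ, ψ = φ (k + 2) := ⟨_, rfl⟩
  obtain ⟨A, hA⟩ : ∃ A : ℝ, A = C * 4 ^ k * ψ := ⟨_, rfl⟩
  have hQ : Q = 2 ^ j * q := by rw [hj, hq]; exact (two_pow_jj_mul_qq Q).symm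
  rw [← hi, ← hj, ← hψ, ← hA] at hα
  rw [← hi] at hi2
  rw [← hj] at hj1 hj2
  rw [← hi, ← hq] at hq1 hq2
  rw [← hψ] at hgood hone
  have hψ0 : 0 < ψ := by rw [hψ]; exact hφ _
  have h4k : (4:ℝ) ≤ 4 ^ k := by
    calc (4:ℝ) = 4 ^ 1 := by norm_num
      _ ≤ 4 ^ k := pow_le_pow_right₀ (by norm_num) hk1
  have hA8 : 8 ≤ A := by
    rw [hA]
    calc (8:ℝ) ≤ 4 ^ k * (C * ψ) := by nlinarith
      _ = C * 4 ^ k * ψ := by ring
  have hqpos : 0 < q := lt_of_lt_of_le (by positivity) hq1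
  have hqR : (0:ℝ) < q := by exact_mod_cast hqpos
  have hqR1 : (1:ℝ) ≤ q := by exact_mod_cast hqpos
  have hq1R : (4:ℝ) ^ i ≤ q := by exact_mod_cast hq1
  have hq2R : (q:ℝ) ≤ 4 ^ (i + 1) := by exact_mod_cast hq2.le
  have h16 : (16:ℝ) ^ (i + 1) = 4 ^ (i + 1) * 4 ^ (i + 1) := by rw [← mul_pow]; norm_num
  obtain ⟨T, hT⟩ : ∃ T : ℝ, T = 4 ^ (i + 1) := ⟨_, rfl⟩
  have hT4 : (4:ℝ) ^ i = T / 4 := by rw [hT, pow_succ]; ring
  rw [← hT] at h16 hq2R
  rw [hT4] at hq1R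
  rw [h16] at hα
  have hTpos : 0 < T := by rw [hT]; positivity
  obtain ⟨X, hX⟩ : ∃ X : ℝ, X = T * T * A / (4 * q) := ⟨_, rfl⟩
  have hXle : X ≤ T * A := by
    rw [hX, div_le_iff₀ (by positivity)]
    have : T ≤ 4 * q := by linarith
    calc T * T * A = T * A * T := by ring
      _ ≤ T * A * (4 * q) := mul_le_mul_of_nonneg_left this (by positivity)
  have hXge : T * A / 4 ≤ X := by
    rw [hX, div_le_div_iff₀ (by norm_num) (by positivity)]
    have h1 : T * A * (4 * q) ≤ T * A * (4 * T) :=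
      mul_le_mul_of_nonneg_left (by linarith) (by positivity)
    linarith
  have hX0 : 0 ≤ X := by rw [hX]; positivity
  obtain ⟨M, hM⟩ : ∃ M : ℕ, M = ⌊X⌋₊ := ⟨_, rfl⟩
  have hMX : (M:ℝ) ≤ X := by rw [hM]; exact Nat.floor_le hX0
  have hXM : X < M + 1 := by rw [hM]; exact Nat.lt_floor_add_one X
  have hT4' : 4 ≤ T := by
    rw [hT, pow_succ]
    have : (1:ℝ) ≤ 4 ^ i := one_le_pow₀ (by norm_num)
    linarith
  have hM1 : 1 ≤ M := by
    have h1 : (0:ℝ) < M := by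
      have : 8 ≤ T * A / 4 := by nlinarith
      linarith
    exact_mod_cast h1
  have hM1R : (1:ℝ) ≤ M := by exact_mod_cast hM1
  have h2j : (0:ℝ) < 2 ^ j := by positivity
  have hMδ : 2 ^ j * M * (1 / A / (2 ^ j * (T * T))) ≤ 1 / (4 * q) := by
    have e : (2:ℝ) ^ j * M * (1 / A / (2 ^ j * (T * T))) = M / (T * T * A) := by
      field_simp
    rw [e, div_le_div_iff₀ (by positivity) (by positivity), one_mul]
    rw [hX, le_div_iff₀ (by positivity)] at hMX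
    exact hMX
  have hD := discrepancy_ge hqpos hQ hα hMδ
  obtain ⟨N, hN⟩ : ∃ N : ℕ, N = 2 ^ j * M := ⟨_, rfl⟩
  rw [← hN] at hD
  have hNR : (N:ℝ) = 2 ^ j * M := by rw [hN]; push_cast; rfl
  have hkN : k < N := by
    have h1 : k < 2 ^ k := Nat.lt_two_pow_self
    have h2 : j < 2 ^ j := Nat.lt_two_pow_self
    have h3 : 2 ^ j ≤ 2 ^ j * M := Nat.le_mul_of_pos_right _ hM1
    omega
  have hN2 : (2:ℝ) ≤ N := by
    have : 2 ≤ N := by omega
    exact_mod_cast this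
  have hNpos : (0:ℝ) < N := by linarith
  refine ⟨N, hkN.le, ?_⟩
  refine le_trans ?_ hD
  -- bounds for logarithms
  have hL0 : 0 < Real.log 2 := Real.log_pos (by norm_num)
  have hL1 : Real.log 2 < 0.6931471808 := Real.log_two_lt_d9
  have hlogpos : 0 < Real.log N := Real.log_pos (by linarith)
  have hlogψ : Real.log ψ ≤ k * Real.log 2 := by
    rw [← Real.log_pow]
    exact Real.log_le_log hψ0 hgood
  have hlogA : Real.log A ≤ Real.log C + 3 * k * Real.log 2 := by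
    rw [hA, Real.log_mul (by positivity) (by positivity), Real.log_mul (by positivity)
      (by positivity), Real.log_pow, log_four_eq]
    linarith
  have hi2R : ((i:ℝ) + 1) ≤ 2 * 2 ^ k := by
    have : i + 1 ≤ 2 ^ (k + 1) := hi2
    have h' : ((i + 1 : ℕ) : ℝ) ≤ ((2 ^ (k + 1) : ℕ) : ℝ) := by exact_mod_cast this
    push_cast at h'
    rw [pow_succ] at h'
    linarith
  have hj2R : (j:ℝ) ≤ 2 * 2 ^ k := by
    have : j ≤ 2 ^ (k + 1) := hj2.le
    have h' : (j : ℝ) ≤ ((2 ^ (k + 1) : ℕ) : ℝ) := by exact_mod_cast this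
    push_cast at h'
    rw [pow_succ] at h'
    linarith
  have hlogN : Real.log N ≤ 5 * 2 ^ k := by
    have h1 : (N:ℝ) ≤ 2 ^ j * (T * A) := by
      rw [hNR]
      exact mul_le_mul_of_nonneg_left (hMX.trans hXle) h2j.le
    have h2 := Real.log_le_log hNpos h1
    rw [Real.log_mul (by positivity) (by positivity), Real.log_mul (by positivity) (by positivity),
      Real.log_pow, hT, Real.log_pow, log_four_eq] at h2
    push_cast at h2
    have h3 : Real.log A ≤ (4 / 5) * 2 ^ k := hlogA.trans hk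
    exact h2.trans (log_sum_aux hL0 hL1 (by positivity) hj2R hi2R h3)
  have hfloor : ⌊Real.log (Real.log N)⌋₊ ≤ k + 2 := by
    apply Nat.floor_le_of_le
    have h1 := Real.log_le_log hlogpos hlogN
    rw [Real.log_mul (by norm_num) (by positivity), Real.log_pow] at h1
    have h5 := log_five_le
    have h8 : (k:ℝ) * Real.log 2 ≤ k * 1 :=
      mul_le_mul_of_nonneg_left (by linarith) (Nat.cast_nonneg k)
    push_cast
    linarith
  have hφle : φ ⌊Real.log (Real.log N)⌋₊ ≤ ψ := by rw [hψ]; exact hmono hfloor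
  have hsq : (Real.log N) ^ 2 ≤ 25 * 4 ^ k := by
    have h1 := pow_le_pow_left₀ hlogpos.le hlogN 2
    have h2 : (5 * (2:ℝ) ^ k) ^ 2 = 25 * 4 ^ k := by
      rw [mul_pow, ← pow_mul, mul_comm k 2, pow_mul]; norm_num
    rwa [h2] at h1
  have hmain1 : (Real.log N) ^ 2 * φ ⌊Real.log (Real.log N)⌋₊ ≤ A / 16 := by
    calc (Real.log N) ^ 2 * φ ⌊Real.log (Real.log N)⌋₊ ≤ (25 * 4 ^ k) * ψ :=
          mul_le_mul hsq hφle (hφ _).le (by positivity)
      _ = 400 * (4 ^ k * ψ) / 16 := by ring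
      _ ≤ C * (4 ^ k * ψ) / 16 := by
          apply div_le_div_of_nonneg_right _ (by norm_num)
          exact mul_le_mul_of_nonneg_right hC (by positivity)
      _ = A / 16 := by rw [hA]; ring
  have hmain2 : A / 16 ≤ M / (2 * q) := by
    rw [div_le_div_iff₀ (by norm_num) (by positivity)]
    have h1 : T * T * A / (4 * q) < M + 1 := by rw [← hX]; exact hXM
    rw [div_lt_iff₀ (by positivity)] at h1
    exact count_aux hqR1 hq2R hA8 h1
  rw [div_le_div_iff₀ hNpos (by positivity), one_mul]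
  have h5 := hmain1.trans hmain2
  rw [le_div_iff₀ (by positivity)] at h5
  calc (Real.log N) ^ 2 * φ ⌊Real.log (Real.log N)⌋₊ * ((2:ℝ) ^ (j + 1) * q) =
        (2:ℝ) ^ j * ((Real.log N) ^ 2 * φ ⌊Real.log (Real.log N)⌋₊ * (2 * q)) := by
          rw [pow_succ]; ring
    _ ≤ (2:ℝ) ^ j * (M:ℝ) := mul_le_mul_of_nonneg_left h5 h2j.le
    _ = (N:ℝ) := hNR.symm

theorem jj_ii_bound {Q k : ℕ} (hi : ii Q < 2 ^ (k + 1)) (hj : jj Q < 2 ^ (k + 1)) :
    Q < 2 ^ (2 ^ (k + 1)) * 4 ^ (2 ^ (k + 1) + 1) := by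
  have h1 : qq Q < 4 ^ (ii Q + 1) := Nat.lt_pow_succ_log_self (by norm_num) _
  have h2 : 4 ^ (ii Q + 1) ≤ 4 ^ (2 ^ (k + 1) + 1) := Nat.pow_le_pow_right (by norm_num) (by omega)
  have h3 : 2 ^ (jj Q) ≤ 2 ^ (2 ^ (k + 1)) := Nat.pow_le_pow_right (by norm_num) hj.le
  calc Q = 2 ^ (jj Q) * qq Q := (two_pow_jj_mul_qq Q).symm
    _ < 2 ^ (jj Q) * 4 ^ (2 ^ (k + 1) + 1) := by
        apply Nat.mul_lt_mul_of_pos_left _ (by positivity)
        omega
    _ ≤ _ := Nat.mul_le_mul_right _ h3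

/-- Let `φ` be positive and nondecreasing with `∑ 1/φ(n) = ∞`. Then for almost every `α` one has
`D_N(α) ≥ (log N)^2 φ(⌊log log N⌋) / N` for infinitely many `N`. -/
theorem result (φ : ℕ → ℝ) (hmono : Monotone φ) (hpos : ∀ n, 0 < φ n)
    (hdiv : ¬ Summable (fun n => 1 / φ n)) :
    ∀ᵐ α : ℝ, ∃ᶠ N : ℕ in atTop,
      (Real.log N) ^ 2 * φ ⌊Real.log (Real.log N)⌋₊ / N ≤ discrepancy α N := by
  obtain ⟨C, hC⟩ : ∃ C : ℝ, C = 400 + 144 / φ 0 := ⟨_, rfl⟩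
  have h0 := hpos 0
  have h00 : 0 < 144 / φ 0 := by positivity
  have hC400 : 400 ≤ C := by linarith
  have hC144 : 144 / φ 0 ≤ C := by linarith
  have hCpos : 0 < C := by linarith
  filter_upwards [ae_infinite (rho φ C) (rho_nonneg φ hpos C hCpos)
    (four_pow_mul_rho_le φ hmono hpos C hC144) (not_summable_rho φ hpos hdiv C hCpos)] with α hα
  rw [Filter.frequently_atTop]
  intro B
  obtain ⟨k₀, hk₀⟩ := (eventually_log_le C).exists_forall_of_atTop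
  obtain ⟨k₁, hk₁⟩ : ∃ k₁, k₁ = k₀ + B + 1 := ⟨_, rfl⟩
  obtain ⟨Q, ⟨hQ0, c, hc⟩, hQbig⟩ := hα.exists_gt (2 ^ (2 ^ (k₁ + 1)) * 4 ^ (2 ^ (k₁ + 1) + 1))
  have hδpos : 0 < delta (rho φ C) Q := lt_of_le_of_lt (abs_nonneg _) hc
  have hlog : Nat.log 2 (ii Q) = Nat.log 2 (jj Q) := by
    by_contra hne
    unfold delta at hδpos
    rw [if_neg hne] at hδpos
    exact lt_irrefl _ hδpos
  obtain ⟨k, hk⟩ : ∃ k, k = Nat.log 2 (ii Q) := ⟨_, rfl⟩
  have hi2 : ii Q < 2 ^ (k + 1) := by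
    rw [hk]; exact Nat.lt_pow_succ_log_self (by norm_num) _
  have hj2 : jj Q < 2 ^ (k + 1) := by
    rw [hk, hlog]; exact Nat.lt_pow_succ_log_self (by norm_num) _
  have hkk : k₁ ≤ k := by
    by_contra hlt
    push Not at hlt
    have h1 : 2 ^ (k + 1) ≤ 2 ^ (k₁ + 1) := Nat.pow_le_pow_right (by norm_num) (by omega)
    have h2 := jj_ii_bound (Q := Q) (k := k₁) (by omega) (by omega)
    omega
  have hk1 : 1 ≤ k := by omega
  have hj1 : 2 ^ k ≤ jj Q := by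
    have hne : jj Q ≠ 0 := by
      intro h
      rw [hlog, h] at hk
      simp at hk
      omega
    rw [hk, hlog]; exact Nat.pow_log_le_self 2 hne
  have hq2 : qq Q < 4 ^ (ii Q + 1) := Nat.lt_pow_succ_log_self (by norm_num) _
  have hq1 : 4 ^ (ii Q) ≤ qq Q := by
    have hne : qq Q ≠ 0 := by
      intro h
      have h1 := two_pow_jj_mul_qq Q
      rw [h] at h1
      omega
    exact Nat.pow_log_le_self 4 hne
  have hdelta : delta (rho φ C) Q = rho φ C k / (2 ^ (jj Q) * 16 ^ (ii Q + 1)) := by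
    unfold delta
    rw [if_pos hlog, ← hk]
  have hgood : φ (k + 2) ≤ 2 ^ k := by
    by_contra hbad
    rw [hdelta] at hδpos
    unfold rho at hδpos
    rw [if_neg hbad, zero_div] at hδpos
    exact lt_irrefl _ hδpos
  have hone : 8 ≤ C * φ (k + 2) := by
    have h1 : φ 0 ≤ φ (k + 2) := hmono (Nat.zero_le _)
    have h2 : 144 ≤ C * φ 0 := by rwa [div_le_iff₀ h0] at hC144
    nlinarith
  rw [hdelta] at hc
  unfold rho at hc
  rw [if_pos hgood] at hc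
  obtain ⟨N, hkN, hN⟩ := scale_step φ hmono hpos C hC400 k hk1 (hk₀ k (by omega)) hgood hone α Q c
    hi2 hj1 hj2 hq1 hq2 hc
  exact ⟨N, by omega, hN⟩

end Pool.Agent.Results.MP_4e48d5_nt.MetricLowerBound
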